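import Mathlib

/-! Counting intervals of monotonicity (the lemmas `alt_count` and `count_valleys` are copied from
`Pool/Agent/Q65/PMCd.lean`). -/

set_option autoImplicit false

open Set Metric

namespace Q128.HC

/-- `Φ` has at most `k` intervals of monotonicity on `[u, v]` (weak partition). -/
def PW (Φ : ℝ → ℝ) (k : ℕ) (u v : ℝ) : Prop :=
  ∃ t : ℕ → ℝ, t 0 = u ∧ t k = v ∧ ∀ i < k, t i ≤ t (i + 1) ∧
    (MonotoneOn Φ (Icc (t i) (t (i + 1))) ∨ AntitoneOn Φ (Icc (t i) (t (i + 1))))

lemma step_mono {p : ℕ → ℝ} {L : ℕ} (hp : ∀ i < L, p i < p (i+1)) :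
    ∀ {i j : ℕ}, i ≤ j → j ≤ L → p i ≤ p j := by
  intro i j hij hj
  induction j, hij using Nat.le_induction with
  | base => exact le_rfl
  | succ j hij ih => exact (ih (by omega)).trans (hp j (by omega)).le

/-- a function with `k` intervals of monotonicity has no longer alternating sequence -/
lemma alt_count (φ : ℝ → ℝ) : ∀ (k : ℕ) (u v : ℝ), PW φ k u v → ∀ (L : ℕ) (p : ℕ → ℝ) (σ : ℝ),
    (σ = 1 ∨ σ = -1) → (∀ i < L, p i < p (i+1)) → u ≤ p 0 → p L ≤ v →
    (∀ i < L, 0 < σ * (-1) ^ i * (φ (p (i+1)) - φ (p i))) → L ≤ k := by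
  intro k
  induction k with
  | zero =>
    intro u v h L p σ _ hp h0 hL _
    obtain ⟨t, ht0, ht1, -⟩ := h
    have huv : u = v := by rw [← ht0, ← ht1]
    by_contra hcon
    have h1 : 0 < L := by omega
    have h2 := hp 0 h1
    have h3 := step_mono hp (show 0 + 1 ≤ L by omega) le_rfl
    linarith
  | succ k ih =>
    intro u v h L p σ hσ hp h0 hL hsg
    obtain ⟨t, ht0, ht1, ht⟩ := h
    have hk := ht k (by omega)
    rw [ht1] at hk
    have hPWk : PW φ k u (t k) := ⟨t, ht0, rfl, fun i hi => ht i (by omega)⟩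
    set w := t k with hw
    rcases le_or_gt (p L) w with h1 | h1
    · have := ih u w hPWk L p σ hσ hp h0 h1 hsg
      omega
    rcases Nat.eq_zero_or_pos L with hL0 | hL0
    · omega
    rcases le_or_gt (p (L-1)) w with h2 | h2
    · have := ih u w hPWk (L-1) p σ hσ (fun i hi => hp i (by omega)) h0 h2
        (fun i hi => hsg i (by omega))
      omega
    rcases Nat.lt_or_ge L 2 with hL2 | hL2
    · omega
    obtain ⟨m, rfl⟩ : ∃ m, L = m + 2 := ⟨L - 2, by omega⟩
    have e1 : m + 2 - 1 = m + 1 := by omega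
    rw [e1] at h2
    have hm0 := hp m (by omega)
    have hm1 := hp (m+1) (by omega)
    have s0 := hsg m (by omega)
    have s1 := hsg (m+1) (by omega)
    set τ : ℝ := σ * (-1) ^ m with hτ
    have hτ' : τ = 1 ∨ τ = -1 := by
      rw [hτ]
      rcases hσ with rfl | rfl <;> rcases neg_one_pow_eq_or ℝ m with h | h <;> rw [h] <;> simp
    have s1' : 0 < - τ * (φ (p (m+1+1)) - φ (p (m+1))) := by
      have : σ * (-1) ^ (m+1) = - τ := by rw [hτ, pow_succ]; ring
      rw [this] at s1; exact s1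
    have hv : p (m+1+1) ≤ v := hL
    rcases le_or_gt w (p m) with h3 | h3
    · exfalso
      have i0 : p m ∈ Icc w v := ⟨h3, by linarith⟩
      have i1 : p (m+1) ∈ Icc w v := ⟨h2.le, by linarith⟩
      have i2 : p (m+1+1) ∈ Icc w v := ⟨by linarith, hv⟩
      rcases hk.2 with hm | hm
      · have a1 := hm i0 i1 hm0.le
        have a2 := hm i1 i2 hm1.le
        rcases hτ' with h | h <;> rw [h] at s0 s1' <;> linarith
      · have a1 := hm i0 i1 hm0.le
        have a2 := hm i1 i2 hm1.le
        rcases hτ' with h | h <;> rw [h] at s0 s1' <;> linarith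
    · have iw : w ∈ Icc w v := ⟨le_rfl, hk.1⟩
      have i1 : p (m+1) ∈ Icc w v := ⟨h2.le, by linarith⟩
      have i2 : p (m+1+1) ∈ Icc w v := ⟨by linarith, hv⟩
      have key : 0 < τ * (φ w - φ (p m)) := by
        rcases hk.2 with hm | hm
        · have a1 := hm iw i1 h2.le
          have a2 := hm i1 i2 hm1.le
          rcases hτ' with h | h <;> rw [h] at s0 s1' ⊢ <;> linarith
        · have a1 := hm iw i1 h2.le
          have a2 := hm i1 i2 hm1.le
          rcases hτ' with h | h <;> rw [h] at s0 s1' ⊢ <;> linarith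
      have := ih u w hPWk (m+1) (fun i => if i ≤ m then p i else w) σ hσ ?_ ?_ ?_ ?_
      · omega
      · intro i hi
        rcases Nat.lt_or_ge i m with h | h
        · have e1 : i ≤ m := h.le
          have e2 : i + 1 ≤ m := h
          simp only [e1, e2, if_true]; exact hp i (by omega)
        · have e1 : i = m := by omega
          subst e1
          simp only [le_refl, if_true, Nat.succ_le_iff, lt_irrefl, if_false]; exact h3
      · simpa using h0
      · simp
      · intro i hi
        rcases Nat.lt_or_ge i m with h | h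
        · have e1 : i ≤ m := h.le
          have e2 : i + 1 ≤ m := h
          simp only [e1, e2, if_true]; exact hsg i (by omega)
        · have e1 : i = m := by omega
          subst e1
          simp only [le_refl, if_true, Nat.succ_le_iff, lt_irrefl, if_false]; exact key

lemma count_valleys {φ : ℝ → ℝ} {k : ℕ} (h : PW φ k 0 1) (S : Finset ℝ) (hS0 : S.Nonempty)
    (hS : ∀ s ∈ S, s ∈ Icc (0:ℝ) 1)
    (hv : ∀ s ∈ S, ∀ t ∈ S, s < t → ∃ τ ∈ Icc s t, φ τ < φ s ∧ φ τ < φ t) :
    2 * (S.card - 1) ≤ k := by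
  classical
  set M := S.card with hM
  have hMpos : 0 < M := Finset.card_pos.mpr hS0
  let s : Fin M ↪o ℝ := S.orderEmbOfFin rfl
  have hsmem : ∀ i, s i ∈ S := fun i => Finset.orderEmbOfFin_mem S rfl i
  let c : ℕ → Fin M := fun i => ⟨min i (M-1), by omega⟩
  have hc : ∀ i, i + 1 < M → s (c i) < s (c (i+1)) := by
    intro i hi
    apply s.strictMono
    show (⟨min i (M-1), _⟩ : Fin M) < ⟨min (i+1) (M-1), _⟩
    rw [Fin.mk_lt_mk]; omega
  have hval : ∀ i, ∃ τ : ℝ, i + 1 < M → (s (c i) < τ ∧ τ < s (c (i+1)) ∧ φ τ < φ (s (c i)) ∧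
      φ τ < φ (s (c (i+1)))) := by
    intro i
    by_cases hi : i + 1 < M
    · obtain ⟨τ, hτ, h1, h2⟩ := hv _ (hsmem (c i)) _ (hsmem (c (i+1))) (hc i hi)
      refine ⟨τ, fun _ => ⟨lt_of_le_of_ne hτ.1 ?_, lt_of_le_of_ne hτ.2 ?_, h1, h2⟩⟩
      · intro he; rw [← he] at h1; exact lt_irrefl _ h1
      · intro he; rw [he] at h2; exact lt_irrefl _ h2
    · exact ⟨0, fun h => absurd h hi⟩
  choose τ hτ using hval
  let p : ℕ → ℝ := fun n => if n % 2 = 0 then s (c (n/2)) else τ (n/2)
  have pe : ∀ i, p (2*i) = s (c i) := by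
    intro i
    show (if (2*i) % 2 = 0 then s (c ((2*i)/2)) else _) = _
    rw [if_pos (by omega)]; congr 2; omega
  have po : ∀ i, p (2*i+1) = τ i := by
    intro i
    show (if (2*i+1) % 2 = 0 then _ else τ ((2*i+1)/2)) = _
    rw [if_neg (by omega)]; congr 1; omega
  refine alt_count φ k 0 1 h (2*(M-1)) p (-1) (Or.inr rfl) ?_ ?_ ?_ ?_
  · intro n hn
    rcases Nat.even_or_odd' n with ⟨i, hi | hi⟩
    · subst hi; rw [pe, po]; exact (hτ i (by omega)).1
    · subst hi
      have e1 : 2*i+1+1 = 2*(i+1) := by ring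
      rw [e1, pe, po]; exact (hτ i (by omega)).2.1
  · have := pe 0; rw [mul_zero] at this; rw [this]; exact (hS _ (hsmem _)).1
  · rw [pe]; exact (hS _ (hsmem _)).2
  · intro n hn
    rcases Nat.even_or_odd' n with ⟨i, hi | hi⟩
    · subst hi; rw [pe, po, pow_mul]
      have := (hτ i (by omega)).2.2.1
      norm_num; linarith
    · subst hi
      have e1 : 2*i+1+1 = 2*(i+1) := by ring
      rw [e1, pe, po, pow_succ, pow_mul]
      have := (hτ i (by omega)).2.2.2
      norm_num; linarith

/-! ### the comb -/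

end Q128.HC
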