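import Mathlib

/-! Clamped sums and partitions of curves of bounded variation. -/

set_option autoImplicit false

open Set Metric

namespace Q128.HC

/-- the clamp to `[0,1]` -/
noncomputable def cl (x : ℝ) : ℝ := max 0 (min x 1)

lemma cl_cont : Continuous cl := by unfold cl; fun_prop
lemma cl_ge {x : ℝ} (h : 1 ≤ x) : cl x = 1 := by unfold cl; rw [min_eq_right h]; norm_num
lemma cl_le {x : ℝ} (h : x ≤ 0) : cl x = 0 := by
  unfold cl; rw [max_eq_left]; exact (min_le_left _ _).trans h
lemma cl_mid {x : ℝ} (h0 : 0 ≤ x) (h1 : x ≤ 1) : cl x = x := by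
  unfold cl; rw [min_eq_left h1, max_eq_right h0]
lemma cl_mono : Monotone cl := fun _ _ h => max_le_max le_rfl (min_le_min h le_rfl)

lemma sum_cl {E : Type*} [AddCommGroup E] [Module ℝ E] (d : ℕ → E) {n i : ℕ} (hi : i < n) {u : ℝ}
    (h0 : (i:ℝ) ≤ u) (h1 : u ≤ i + 1) :
    ∑ j ∈ Finset.range n, cl (u - j) • d j = (∑ j ∈ Finset.range i, d j) + (u - i) • d i := by
  rw [← Finset.sum_range_add_sum_Ico _ hi.le, Finset.sum_eq_sum_Ico_succ_bot hi]
  have e1 : ∑ j ∈ Finset.range i, cl (u - j) • d j = ∑ j ∈ Finset.range i, d j := by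
    refine Finset.sum_congr rfl fun j hj => ?_
    have hj' : (j:ℝ) + 1 ≤ i := by exact_mod_cast Finset.mem_range.mp hj
    rw [cl_ge (by linarith), one_smul]
  have e2 : ∑ j ∈ Finset.Ico (i + 1) n, cl (u - j) • d j = 0 := by
    refine Finset.sum_eq_zero fun j hj => ?_
    have hj' : (i:ℝ) + 1 ≤ j := by exact_mod_cast (Finset.mem_Ico.mp hj).1
    rw [cl_le (by linarith), zero_smul]
  rw [e1, e2, add_zero, cl_mid (by linarith) (by linarith)]

/-- A curve of variation less than `δ (m + 1)` splits in `m + 1` pieces of diameter at most `δ`. -/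
lemma partition {E : Type*} [PseudoMetricSpace E] {g : ℝ → E} {δ : ℝ} (hδ : 0 < δ) :
    ∀ (m : ℕ) (a : ℝ), a ≤ 1 → ContinuousOn g (Icc a 1) →
      eVariationOn g (Icc a 1) < ENNReal.ofReal (δ * (m + 1)) →
      ∃ t : ℕ → ℝ, t 0 = a ∧ t (m + 1) = 1 ∧ ∀ i ≤ m, t i ≤ t (i + 1) ∧
        ∀ s ∈ Icc (t i) (t (i + 1)), ∀ s' ∈ Icc (t i) (t (i + 1)), dist (g s) (g s') ≤ δ := by
  intro m
  induction m with
  | zero =>
    intro a ha hc hv
    refine ⟨fun i => if i = 0 then a else 1, by simp, by simp, ?_⟩
    intro i hi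
    obtain rfl : i = 0 := by omega
    simp only [if_true, zero_add, one_ne_zero, if_false]
    refine ⟨ha, fun s hs s' hs' => ?_⟩
    have h1 := eVariationOn.edist_le g hs hs'
    have h2 := lt_of_le_of_lt h1 hv
    rw [edist_dist, ENNReal.ofReal_lt_ofReal_iff (by positivity)] at h2
    push_cast at h2
    linarith
  | succ m ih =>
    intro a ha hc hv
    set A : Set ℝ := {t | t ∈ Icc a 1 ∧ ∀ s ∈ Icc a t, ∀ s' ∈ Icc a t, dist (g s) (g s') ≤ δ}
      with hA
    have haA : a ∈ A := by
      refine ⟨⟨le_rfl, ha⟩, fun s hs s' hs' => ?_⟩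
      have e1 : s = a := le_antisymm hs.2 hs.1
      have e2 : s' = a := le_antisymm hs'.2 hs'.1
      rw [e1, e2, dist_self]; exact hδ.le
    have hbdd : BddAbove A := ⟨1, fun t ht => ht.1.2⟩
    set b := sSup A with hb
    have hab : a ≤ b := le_csSup hbdd haA
    have hb1 : b ≤ 1 := csSup_le ⟨a, haA⟩ (fun t ht => ht.1.2)
    have hcont : ∀ η > 0, ∃ r > 0, ∀ x ∈ Icc a 1, |x - b| < r → dist (g x) (g b) < η := by
      intro η hη
      have h1 := Metric.continuousWithinAt_iff.mp (hc b ⟨hab, hb1⟩) η hη
      obtain ⟨r, hr, h⟩ := h1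
      exact ⟨r, hr, fun x hx hxb => h hx (by rwa [Real.dist_eq])⟩
    have hlt : ∀ s, a ≤ s → s < b → ∀ s', a ≤ s' → s' < b → dist (g s) (g s') ≤ δ := by
      intro s hs hsb s' hs' hsb'
      obtain ⟨t, htA, ht⟩ := exists_lt_of_lt_csSup ⟨a, haA⟩ (max_lt hsb hsb')
      exact htA.2 s ⟨hs, (le_max_left _ _).trans ht.le⟩ s' ⟨hs', (le_max_right _ _).trans ht.le⟩
    have hgood : ∀ s ∈ Icc a b, ∀ s' ∈ Icc a b, dist (g s) (g s') ≤ δ := by
      rcases hab.eq_or_lt with hab' | hab'
      · intro s hs s' hs'
        rw [← hab'] at hs hs'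
        exact haA.2 s hs s' hs'
      intro s hs s' hs'
      refine le_of_forall_pos_le_add fun η hη => ?_
      obtain ⟨r, hr, h⟩ := hcont (η / 4) (by positivity)
      set c := max a (b - r / 2) with hc'
      have hcb : c < b := max_lt hab' (by linarith)
      have hac : a ≤ c := le_max_left _ _
      have key : ∀ x ∈ Icc a b, dist (g x) (g (min x c)) ≤ η / 2 := by
        intro x hx
        rcases le_total x c with hxc | hxc
        · rw [min_eq_left hxc, dist_self]; positivity
        · rw [min_eq_right hxc]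
          have hcr : b - r / 2 ≤ c := le_max_right _ _
          have h1 := h x ⟨hx.1, hx.2.trans hb1⟩ (by
            rw [abs_lt]; constructor <;> linarith [hx.2])
          have h2 := h c ⟨hac, hcb.le.trans hb1⟩ (by
            rw [abs_lt]; constructor <;> linarith)
          have h3 := dist_triangle_right (g x) (g c) (g b)
          linarith
      have k1 := key s hs
      have k2 := key s' hs'
      have k3 := hlt (min s c) (le_min hs.1 hac) ((min_le_right _ _).trans_lt hcb) (min s' c)
        (le_min hs'.1 hac) ((min_le_right _ _).trans_lt hcb)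
      have k4 := dist_triangle4 (g s) (g (min s c)) (g (min s' c)) (g s')
      rw [dist_comm (g (min s' c)) (g s')] at k4
      linarith
    rcases hb1.eq_or_lt with hb1' | hb1'
    · refine ⟨fun i => if i = 0 then a else 1, by simp, by simp, ?_⟩
      intro i _
      rcases Nat.eq_zero_or_pos i with rfl | hi
      · simp only [if_true, zero_add, one_ne_zero, if_false]
        refine ⟨ha, ?_⟩
        rw [hb1'] at hgood
        exact hgood
      · have e1 : i ≠ 0 := by omega
        have e2 : i + 1 ≠ 0 := by omega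
        simp only [e1, e2, if_false]
        refine ⟨le_rfl, fun s hs s' hs' => ?_⟩
        have e1 : s = 1 := le_antisymm hs.2 hs.1
        have e2 : s' = 1 := le_antisymm hs'.2 hs'.1
        rw [e1, e2, dist_self]; exact hδ.le
    -- variation on `[a, b]`
    have hsplit : eVariationOn g (Icc a b) + eVariationOn g (Icc b 1) =
        eVariationOn g (Icc a 1) := by
      have := eVariationOn.Icc_add_Icc g (s := Set.univ) hab hb1 (mem_univ b)
      simpa using this
    have hfin : eVariationOn g (Icc a b) ≠ ⊤ := by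
      intro htop
      rw [htop, top_add] at hsplit
      rw [← hsplit] at hv
      exact absurd hv (not_lt.mpr le_top)
    have hvar : ENNReal.ofReal δ ≤ eVariationOn g (Icc a b) := by
      rw [ENNReal.ofReal_le_iff_le_toReal hfin]
      by_contra hcon
      push Not at hcon
      set v := (eVariationOn g (Icc a b)).toReal with hvv
      obtain ⟨r, hr, h⟩ := hcont ((δ - v) / 4) (by linarith)
      set t := min 1 (b + r / 2) with ht
      have hbt : b < t := lt_min hb1' (by linarith)
      have ht1 : t ≤ 1 := min_le_left _ _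
      have htr : t ≤ b + r / 2 := min_le_right _ _
      have htA : t ∉ A := fun hmem => absurd (le_csSup hbdd hmem) (not_le.mpr hbt)
      have : ∃ s ∈ Icc a t, ∃ s' ∈ Icc a t, δ < dist (g s) (g s') := by
        by_contra hno
        push Not at hno
        exact htA ⟨⟨hab.trans hbt.le, ht1⟩, hno⟩
      obtain ⟨s, hs, s', hs', hd⟩ := this
      have key : ∀ x ∈ Icc a t, dist (g x) (g (min x b)) ≤ (δ - v) / 4 := by
        intro x hx
        rcases le_total x b with hxb | hxb
        · rw [min_eq_left hxb, dist_self]; linarith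
        · rw [min_eq_right hxb]
          exact (h x ⟨hx.1, hx.2.trans ht1⟩ (by
            rw [abs_lt]; constructor <;> linarith [hx.2])).le
      have k1 := key s hs
      have k2 := key s' hs'
      have m1 : min s b ∈ Icc a b := ⟨le_min hs.1 hab, min_le_right _ _⟩
      have m2 : min s' b ∈ Icc a b := ⟨le_min hs'.1 hab, min_le_right _ _⟩
      have k3 := eVariationOn.edist_le g m1 m2
      rw [edist_dist, ENNReal.ofReal_le_iff_le_toReal hfin, ← hvv] at k3
      have k4 := dist_triangle4 (g s) (g (min s b)) (g (min s' b)) (g s')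
      rw [dist_comm (g (min s' b)) (g s')] at k4
      linarith
    have hrest : eVariationOn g (Icc b 1) < ENNReal.ofReal (δ * (m + 1)) := by
      by_contra hcon
      push Not at hcon
      have h1 : ENNReal.ofReal (δ * ((m + 1 : ℕ) + 1)) =
          ENNReal.ofReal δ + ENNReal.ofReal (δ * (m + 1)) := by
        rw [← ENNReal.ofReal_add hδ.le (by positivity)]
        congr 1; push_cast; ring
      rw [h1, ← hsplit] at hv
      exact absurd (add_le_add hvar hcon) (not_le.mpr hv)
    obtain ⟨t, ht0, ht1, ht⟩ := ih b hb1 (hc.mono (Icc_subset_Icc_left hab)) hrest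
    refine ⟨fun i => if i = 0 then a else t (i - 1), by simp, by simp [ht1], ?_⟩
    intro i hi
    rcases Nat.eq_zero_or_pos i with rfl | hi0
    · simp only [if_true, zero_add, one_ne_zero, if_false, Nat.sub_self, ht0]
      exact ⟨hab, hgood⟩
    · have e1 : i ≠ 0 := by omega
      have e2 : i + 1 ≠ 0 := by omega
      simp only [e1, e2, if_false, Nat.add_sub_cancel]
      have := ht (i - 1) (by omega)
      rwa [Nat.sub_add_cancel hi0] at this

end Q128.HC
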