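import Mathlib
import Pool.Agent.Q128.HC.Part
import Pool.Agent.Q128.HC.Count

/-! Lower bound: a comb with spikes of length and spacing `q`. -/

set_option autoImplicit false

open Set Metric

namespace Q128.HC

/-- directions: up, down, right, up, down, right, … -/
noncomputable def dir (j : ℕ) : ℂ := if j % 3 = 0 then Complex.I else if j % 3 = 1 then -Complex.I else 1

lemma norm_dir (j : ℕ) : ‖dir j‖ = 1 := by
  unfold dir
  split_ifs <;> simp

lemma sum_dir (i : ℕ) : ∑ j ∈ Finset.range (3 * i), dir j = i := by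
  induction i with
  | zero => simp
  | succ i ih =>
    have e : 3 * (i + 1) = 3 * i + 1 + 1 + 1 := by ring
    rw [e, Finset.sum_range_succ, Finset.sum_range_succ, Finset.sum_range_succ, ih]
    have h0 : dir (3 * i) = Complex.I := by unfold dir; rw [if_pos (by omega)]
    have h1 : dir (3 * i + 1) = -Complex.I := by
      unfold dir; rw [if_neg (by omega), if_pos (by omega)]
    have h2 : dir (3 * i + 1 + 1) = 1 := by
      unfold dir; rw [if_neg (by omega), if_neg (by omega)]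
    rw [h0, h1, h2]; push_cast; ring

/-- the comb as a curve -/
noncomputable def cb (K : ℕ) (q : ℝ) (t : ℝ) : ℂ :=
  ∑ j ∈ Finset.range K, cl (K * t - j) • ((q : ℂ) * dir j)

lemma cb_cont (K : ℕ) (q : ℝ) : Continuous (cb K q) := by
  unfold cb
  refine continuous_finsetSum _ fun j _ => ?_
  exact (cl_cont.comp (by fun_prop)).smul continuous_const

lemma cb_eq {K j : ℕ} (hj : j < K) (q : ℝ) {t : ℝ} (h0 : (j:ℝ) ≤ K * t) (h1 : K * t ≤ j + 1) :
    cb K q t = q * (∑ l ∈ Finset.range j, dir l) + (((K * t - j : ℝ)) : ℂ) * (q * dir j) := by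
  unfold cb
  rw [sum_cl _ hj h0 h1, Finset.mul_sum, Complex.real_smul]

lemma sum_one {K : ℕ} (hK : 1 ≤ K) {u : ℝ} (h0 : 0 ≤ u) (h1 : u ≤ K) :
    ∑ j ∈ Finset.range K, cl (u - j) = u := by
  obtain ⟨i, hi, a, b⟩ : ∃ i < K, (i:ℝ) ≤ u ∧ u ≤ i + 1 := by
    rcases h1.eq_or_lt with h | h
    · refine ⟨K - 1, by omega, ?_, ?_⟩
      · rw [h]; exact_mod_cast Nat.sub_le _ _
      · rw [h]
        have : (K:ℝ) = ((K - 1 : ℕ) : ℝ) + 1 := by
          rw [Nat.cast_sub hK]; push_cast; ring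
        rw [← this]
    · exact ⟨⌊u⌋₊, (Nat.floor_lt h0).mpr h, Nat.floor_le h0, (Nat.lt_floor_add_one u).le⟩
  have := sum_cl (E := ℝ) (fun _ => (1:ℝ)) hi a b
  simp only [smul_eq_mul, mul_one, Finset.sum_const, Finset.card_range, nsmul_eq_mul] at this
  rw [this]; ring

lemma cb_lip {K : ℕ} (hK : 1 ≤ K) : LipschitzOnWith 1 (cb K (1 / K)) (Icc 0 1) := by
  have hK0 : (0:ℝ) < K := by exact_mod_cast hK
  have key : ∀ s ∈ Icc (0:ℝ) 1, ∀ t ∈ Icc (0:ℝ) 1, s ≤ t →
      dist (cb K (1 / K) t) (cb K (1 / K) s) ≤ t - s := by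
    intro s hs t ht hst
    rw [dist_eq_norm]
    unfold cb
    rw [← Finset.sum_sub_distrib]
    refine (norm_sum_le _ _).trans ?_
    have h1 : ∀ j ∈ Finset.range K,
        ‖cl (K * t - j) • ((((1 / K : ℝ)) : ℂ) * dir j) - cl (K * s - j) • ((((1 / K : ℝ)) : ℂ) * dir j)‖ =
          (cl (K * t - j) - cl (K * s - j)) * (1 / K) := by
      intro j _
      rw [← sub_smul, norm_smul, norm_mul, norm_dir, mul_one, Complex.norm_real, Real.norm_eq_abs,
        Real.norm_eq_abs, abs_of_nonneg, abs_of_nonneg]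
      · positivity
      · have : K * s - j ≤ K * t - (j:ℝ) := by nlinarith
        linarith [cl_mono this]
    rw [Finset.sum_congr rfl h1, ← Finset.sum_mul, Finset.sum_sub_distrib,
      sum_one hK (by have := ht.1; positivity) (by nlinarith [ht.2]),
      sum_one hK (by have := hs.1; positivity) (by nlinarith [hs.2])]
    rw [← mul_sub]
    have : (K:ℝ) * (t - s) * (1 / K) = t - s := by field_simp
    rw [this]
  refine LipschitzOnWith.of_dist_le_mul fun s hs t ht => ?_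
  rw [NNReal.coe_one, one_mul]
  rcases le_total s t with h | h
  · rw [dist_comm, dist_comm s t, Real.dist_eq, abs_of_nonneg (by linarith)]
    exact key s hs t ht h
  · rw [Real.dist_eq, abs_of_nonneg (by linarith)]
    exact key t ht s hs h

lemma cb_var {K : ℕ} (hK : 1 ≤ K) : eVariationOn (cb K (1 / K)) (Icc 0 1) ≤ 1 := by
  have h1 := (cb_lip hK).comp_eVariationOn_le (g := fun x : ℝ => x) (s := Icc (0:ℝ) 1)
    (fun x hx => hx)
  have h2 : eVariationOn (fun x : ℝ => x) (Icc (0:ℝ) 1) ≤ ENNReal.ofReal (1 - 0) := by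
    have := MonotoneOn.eVariationOn_eq (f := fun x : ℝ => x) (s := Icc (0:ℝ) 1)
      (fun x _ y _ h => h) (a := 0) (b := 1) ⟨le_rfl, zero_le_one⟩ ⟨zero_le_one, le_rfl⟩
    rw [inter_self] at this
    exact this.le
  refine h1.trans ?_
  rw [ENNReal.coe_one, one_mul]
  refine h2.trans ?_
  rw [sub_zero, ENNReal.ofReal_one]

/-- every point of the comb is on the base line or on a spike -/
lemma cb_shape {N : ℕ} (hN : 1 ≤ N) (q : ℝ) {t : ℝ} (ht : t ∈ Icc (0:ℝ) 1) :
    (cb (3 * N) q t).im = 0 ∨ ∃ i : ℕ, (cb (3 * N) q t).re = i * q := by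
  have hK : 1 ≤ 3 * N := by omega
  have hK0 : (0:ℝ) < ((3 * N : ℕ) : ℝ) := by exact_mod_cast hK
  obtain ⟨j, hj, a, b⟩ : ∃ j < 3 * N, (j:ℝ) ≤ ((3 * N : ℕ) : ℝ) * t ∧ ((3 * N : ℕ) : ℝ) * t ≤ j + 1 := by
    have u1 : ((3 * N : ℕ) : ℝ) * t ≤ ((3 * N : ℕ) : ℝ) := by nlinarith [ht.2]
    have u0 : 0 ≤ ((3 * N : ℕ) : ℝ) * t := mul_nonneg hK0.le ht.1
    rcases u1.eq_or_lt with h | h
    · refine ⟨3 * N - 1, by omega, ?_, ?_⟩
      · rw [h]; exact_mod_cast Nat.sub_le _ _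
      · rw [h]
        have : ((3 * N : ℕ) : ℝ) = ((3 * N - 1 : ℕ) : ℝ) + 1 := by
          rw [Nat.cast_sub hK]; push_cast; ring
        rw [← this]
    · exact ⟨⌊_⌋₊, (Nat.floor_lt u0).mpr h, Nat.floor_le u0, (Nat.lt_floor_add_one _).le⟩
  rw [cb_eq hj q a b]
  obtain ⟨i, hi⟩ : ∃ i, j = 3 * i ∨ j = 3 * i + 1 ∨ j = 3 * i + 2 := ⟨j / 3, by omega⟩
  have h0 : dir (3 * i) = Complex.I := by unfold dir; rw [if_pos (by omega)]
  have h1 : dir (3 * i + 1) = -Complex.I := by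
    unfold dir; rw [if_neg (by omega), if_pos (by omega)]
  have h2 : dir (3 * i + 2) = 1 := by
    unfold dir; rw [if_neg (by omega), if_neg (by omega)]
  rcases hi with rfl | rfl | rfl
  · right; refine ⟨i, ?_⟩
    rw [sum_dir, h0]
    simp
    ring
  · right; refine ⟨i, ?_⟩
    rw [Finset.sum_range_succ, sum_dir, h0, h1]
    simp
    ring
  · left
    rw [show 3 * i + 2 = 3 * i + 1 + 1 by ring, Finset.sum_range_succ, Finset.sum_range_succ,
      sum_dir, h0, h1, show 3 * i + 1 + 1 = 3 * i + 2 by ring, h2]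
    simp

lemma cb_tip {N i : ℕ} (hi : i < N) (q : ℝ) :
    ∃ t ∈ Icc (0:ℝ) 1, cb (3 * N) q t = ⟨i * q, q⟩ := by
  have hK0 : (0:ℝ) < ((3 * N : ℕ) : ℝ) := by exact_mod_cast (show 0 < 3 * N by omega)
  have e : ((3 * N : ℕ) : ℝ) * (((3 * i + 1 : ℕ) : ℝ) / ((3 * N : ℕ) : ℝ)) = ((3 * i + 1 : ℕ) : ℝ) := by
    field_simp
  refine ⟨((3 * i + 1 : ℕ) : ℝ) / ((3 * N : ℕ) : ℝ), ⟨by positivity, ?_⟩, ?_⟩
  · rw [div_le_one hK0]; exact_mod_cast (show 3 * i + 1 ≤ 3 * N by omega)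
  · rw [cb_eq (show 3 * i + 1 < 3 * N by omega) q (by rw [e]) (by rw [e]; linarith), e, sub_self,
      Finset.sum_range_succ, sum_dir]
    have h0 : dir (3 * i) = Complex.I := by unfold dir; rw [if_pos (by omega)]
    rw [h0]
    apply Complex.ext
    · simp; ring
    · simp

/-- the comb as a subset of the plane -/
def comb (N : ℕ) (q : ℝ) : Set (ℝ × ℝ) :=
  (fun t => ((cb (3 * N) q t).re, (cb (3 * N) q t).im)) '' Icc (0:ℝ) 1

theorem lower {N : ℕ} (hN : 1 ≤ N) {q : ℝ} (hq : 0 < q) {φ ψ : ℝ → ℝ}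
    (hφ : ContinuousOn φ (Icc 0 1)) (hψ : ContinuousOn ψ (Icc 0 1)) {k : ℕ} (hk : PW ψ k 0 1)
    (hd : hausdorffDist (comb N q) ((fun t => (φ t, ψ t)) '' Icc 0 1) < q / 2) :
    2 * (N - 1) ≤ k := by
  classical
  set γ : Set (ℝ × ℝ) := (fun t => (φ t, ψ t)) '' Icc 0 1 with hγ
  have hcont : ContinuousOn (fun t => (φ t, ψ t)) (Icc (0:ℝ) 1) := hφ.prodMk hψ
  have hγc : IsCompact γ := isCompact_Icc.image_of_continuousOn hcont
  have hγn : γ.Nonempty := ⟨_, 0, ⟨le_rfl, zero_le_one⟩, rfl⟩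
  have hcc : IsCompact (comb N q) := by
    refine isCompact_Icc.image_of_continuousOn (Continuous.continuousOn ?_)
    exact (Complex.continuous_re.comp (cb_cont _ _)).prodMk (Complex.continuous_im.comp (cb_cont _ _))
  have hcn : (comb N q).Nonempty := ⟨_, 0, ⟨le_rfl, zero_le_one⟩, rfl⟩
  have hfin : hausdorffEDist (comb N q) γ ≠ ⊤ :=
    hausdorffEDist_ne_top_of_nonempty_of_bounded hcn hγn hcc.isBounded hγc.isBounded
  have hnear1 : ∀ i < N, ∃ t, t ∈ Icc (0:ℝ) 1 ∧ |i * q - φ t| < q / 2 ∧ |q - ψ t| < q / 2 := by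
    intro i hi
    obtain ⟨s, hs, hs'⟩ := cb_tip hi q
    have hz : ((i:ℝ) * q, q) ∈ comb N q := ⟨s, hs, by
      show ((cb (3 * N) q s).re, (cb (3 * N) q s).im) = _
      rw [hs']⟩
    obtain ⟨y, hy, hzy⟩ := exists_dist_lt_of_hausdorffDist_lt hz hd hfin
    obtain ⟨t, ht, rfl⟩ := hy
    rw [Prod.dist_eq, max_lt_iff, Real.dist_eq, Real.dist_eq] at hzy
    exact ⟨t, ht, hzy⟩
  have hnear2 : ∀ t ∈ Icc (0:ℝ) 1, ∃ s ∈ Icc (0:ℝ) 1, |φ t - (cb (3 * N) q s).re| < q / 2 ∧
      |ψ t - (cb (3 * N) q s).im| < q / 2 := by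
    intro t ht
    obtain ⟨z, hz, hzy⟩ := exists_dist_lt_of_hausdorffDist_lt' (mem_image_of_mem _ ht) hd hfin
    obtain ⟨s, hs, rfl⟩ := hz
    refine ⟨s, hs, ?_⟩
    rw [Prod.dist_eq, max_lt_iff, Real.dist_eq, Real.dist_eq] at hzy
    rw [abs_sub_comm (φ t), abs_sub_comm (ψ t)]
    exact hzy
  choose! s hs using hnear1
  -- between two tips there is a valley
  have hval : ∀ i < N, ∀ j < N, i < j → ∃ τ ∈ uIcc (s i) (s j), ψ τ < q / 2 := by
    intro i hi j hj hij
    obtain ⟨hsi, h1, h2⟩ := hs i hi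
    obtain ⟨hsj, h3, h4⟩ := hs j hj
    rw [abs_lt] at h1 h3
    have hijR : (i:ℝ) + 1 ≤ j := by exact_mod_cast hij
    have hijq : ((i:ℝ) + 1) * q ≤ j * q := mul_le_mul_of_nonneg_right hijR hq.le
    have hsub : uIcc (s i) (s j) ⊆ Icc (0:ℝ) 1 := uIcc_subset_Icc hsi hsj
    have hiv := intermediate_value_uIcc (hφ.mono hsub)
    have hmem : (i:ℝ) * q + q / 2 ∈ uIcc (φ (s i)) (φ (s j)) := by
      rw [mem_uIcc]; left; constructor
      · linarith [h1.1]
      · nlinarith [h3.2]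
    obtain ⟨τ, hτ, hτφ⟩ := hiv hmem
    refine ⟨τ, hτ, ?_⟩
    obtain ⟨r, hr, h5, h6⟩ := hnear2 τ (hsub hτ)
    rw [hτφ, abs_lt] at h5
    rcases cb_shape hN q hr with h0 | ⟨m, hm⟩
    · rw [h0, sub_zero, abs_lt] at h6
      exact h6.2
    · exfalso
      rw [hm] at h5
      have a1 : (m:ℝ) * q < ((i:ℝ) + 1) * q := by nlinarith [h5.1]
      have a2 : (i:ℝ) * q < m * q := by nlinarith [h5.2]
      have b1 : (m:ℝ) < (i:ℝ) + 1 := lt_of_mul_lt_mul_right a1 hq.le
      have b2 : (i:ℝ) < m := lt_of_mul_lt_mul_right a2 hq.le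
      have c1 : m < i + 1 := by exact_mod_cast b1
      have c2 : i < m := by exact_mod_cast b2
      omega
  have htop : ∀ i < N, q / 2 < ψ (s i) := by
    intro i hi
    have := (hs i hi).2.2
    rw [abs_lt] at this
    linarith [this.2]
  have hinj : ∀ i < N, ∀ j < N, i < j → s i ≠ s j := by
    intro i hi j hj hij he
    obtain ⟨τ, hτ, h⟩ := hval i hi j hj hij
    rw [← he, uIcc_self, mem_singleton_iff] at hτ
    rw [hτ] at h
    linarith [htop i hi]
  have hinj' : Set.InjOn s (Finset.range N : Set ℕ) := by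
    intro i hi j hj he
    have hi' : i < N := Finset.mem_range.mp hi
    have hj' : j < N := Finset.mem_range.mp hj
    rcases lt_trichotomy i j with h | h | h
    · exact absurd he (hinj i hi' j hj' h)
    · exact h
    · exact absurd he.symm (hinj j hj' i hi' h)
  have hcard : ((Finset.range N).image s).card = N := by
    rw [Finset.card_image_of_injOn hinj', Finset.card_range]
  have := count_valleys hk ((Finset.range N).image s)
    (by rw [Finset.image_nonempty]; exact ⟨0, Finset.mem_range.mpr (by omega)⟩) (by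
      intro x hx
      obtain ⟨i, hi, rfl⟩ := Finset.mem_image.mp hx
      exact (hs i (Finset.mem_range.mp hi)).1) (by
      intro x hx y hy hxy
      obtain ⟨i, hi, rfl⟩ := Finset.mem_image.mp hx
      obtain ⟨j, hj, rfl⟩ := Finset.mem_image.mp hy
      have hi' := Finset.mem_range.mp hi
      have hj' := Finset.mem_range.mp hj
      have hne : i ≠ j := by rintro rfl; exact lt_irrefl _ hxy
      have hτ : ∃ τ ∈ uIcc (s i) (s j), ψ τ < q / 2 := by
        rcases lt_or_gt_of_ne hne with h | h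
        · exact hval i hi' j hj' h
        · rw [uIcc_comm]; exact hval j hj' i hi' h
      obtain ⟨τ, hτ, h⟩ := hτ
      rw [uIcc_of_le hxy.le] at hτ
      exact ⟨τ, hτ, h.trans (htop i hi'), h.trans (htop j hj')⟩)
  rwa [hcard] at this

end Q128.HC
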