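import Mathlib
import Pool.Agent.Q128.HC.Part

/-! Upper bound: polygons through the centres of boxes. -/

set_option autoImplicit false

open Set Metric

namespace Q128.HC

lemma center1 {S : Set ℝ} (hS : S.Nonempty) {δ : ℝ} (h : ∀ x ∈ S, ∀ y ∈ S, dist x y ≤ δ) :
    ∃ c, ∀ x ∈ S, dist x c ≤ δ / 2 := by
  obtain ⟨x0, hx0⟩ := hS
  have hb : BddAbove S := ⟨x0 + δ, fun x hx => by
    have := h x hx x0 hx0
    rw [Real.dist_eq] at this
    linarith [le_abs_self (x - x0)]⟩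
  have hb' : BddBelow S := ⟨x0 - δ, fun x hx => by
    have := h x0 hx0 x hx
    rw [Real.dist_eq] at this
    linarith [le_abs_self (x0 - x)]⟩
  have hw : sSup S - sInf S ≤ δ := by
    have : sSup S ≤ sInf S + δ := by
      refine csSup_le ⟨x0, hx0⟩ fun x hx => ?_
      have : x - δ ≤ sInf S := by
        refine le_csInf ⟨x0, hx0⟩ fun y hy => ?_
        have := h x hx y hy
        rw [Real.dist_eq] at this
        linarith [le_abs_self (x - y)]
      linarith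
    linarith
  refine ⟨(sInf S + sSup S) / 2, fun x hx => ?_⟩
  rw [Real.dist_eq, abs_le]
  constructor
  · linarith [csInf_le hb' hx]
  · linarith [le_csSup hb hx]

lemma center2 {S : Set (ℝ × ℝ)} (hS : S.Nonempty) {δ : ℝ}
    (h : ∀ x ∈ S, ∀ y ∈ S, dist x y ≤ δ) : ∃ c, ∀ x ∈ S, dist x c ≤ δ / 2 := by
  obtain ⟨c1, h1⟩ := center1 (S := Prod.fst '' S) (δ := δ) (hS.image _) (by
    rintro _ ⟨x, hx, rfl⟩ _ ⟨y, hy, rfl⟩
    exact (le_max_left _ _).trans (h x hx y hy))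
  obtain ⟨c2, h2⟩ := center1 (S := Prod.snd '' S) (δ := δ) (hS.image _) (by
    rintro _ ⟨x, hx, rfl⟩ _ ⟨y, hy, rfl⟩
    exact (le_max_right _ _).trans (h x hx y hy))
  exact ⟨(c1, c2), fun x hx => max_le (h1 _ ⟨x, hx, rfl⟩) (h2 _ ⟨x, hx, rfl⟩)⟩

/-- the polygon through `c 0, …, c n` -/
noncomputable def P (c : ℕ → ℝ × ℝ) (n : ℕ) (t : ℝ) : ℝ × ℝ :=
  c 0 + ∑ j ∈ Finset.range n, cl (n * t - j) • (c (j + 1) - c j)

lemma P_cont (c : ℕ → ℝ × ℝ) (n : ℕ) : Continuous (P c n) := by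
  unfold P
  refine continuous_const.add (continuous_finsetSum _ fun j _ => ?_)
  exact (cl_cont.comp (by fun_prop)).smul continuous_const

lemma P_eq (c : ℕ → ℝ × ℝ) {n i : ℕ} (hi : i < n) {t : ℝ} (h0 : (i:ℝ) ≤ n * t)
    (h1 : n * t ≤ i + 1) : P c n t = c i + (n * t - i) • (c (i + 1) - c i) := by
  unfold P
  rw [sum_cl _ hi h0 h1, Finset.sum_range_sub]
  abel

lemma exists_piece {t : ℕ → ℝ} {n : ℕ} (h0 : t 0 = 0) (h1 : t (n + 1) = 1) {s : ℝ}
    (hs : s ∈ Icc (0:ℝ) 1) : ∃ i ≤ n, s ∈ Icc (t i) (t (i + 1)) := by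
  by_contra hcon
  push Not at hcon
  have key : ∀ i ≤ n + 1, t i ≤ s := by
    intro i
    induction i with
    | zero => intro _; rw [h0]; exact hs.1
    | succ i ih =>
      intro hi
      have h2 := ih (by omega)
      by_contra h3
      push Not at h3
      exact hcon i (by omega) ⟨h2, h3.le⟩
  have h4 : s = 1 := le_antisymm hs.2 (h1 ▸ key (n + 1) le_rfl)
  exact hcon n le_rfl ⟨key n (by omega), by rw [h1]; exact hs.2⟩

lemma exists_idx {n : ℕ} (hn : 1 ≤ n) {u : ℝ} (h0 : 0 ≤ u) (h1 : u ≤ n) :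
    ∃ i < n, (i:ℝ) ≤ u ∧ u ≤ i + 1 := by
  rcases h1.eq_or_lt with h | h
  · refine ⟨n - 1, by omega, ?_, ?_⟩
    · rw [h]; exact_mod_cast Nat.sub_le _ _
    · rw [h]
      have : (n:ℝ) = ((n - 1 : ℕ) : ℝ) + 1 := by
        rw [Nat.cast_sub hn]; push_cast; ring
      rw [← this]
  · refine ⟨⌊u⌋₊, (Nat.floor_lt h0).mpr h, Nat.floor_le h0, (Nat.lt_floor_add_one u).le⟩

theorem upper {n : ℕ} (hn : 1 ≤ n) {g : ℝ → ℝ × ℝ} (hc : ContinuousOn g (Icc 0 1))
    (hv : eVariationOn g (Icc 0 1) ≤ 1) : ∃ c : ℕ → ℝ × ℝ,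
    hausdorffDist (g '' Icc 0 1) ((P c n) '' Icc 0 1) ≤ 1 / (2 * n) := by
  have hn0 : (0:ℝ) < n := by exact_mod_cast hn
  obtain ⟨t, ht0, ht1, ht⟩ := partition (g := g) (δ := 1 / n) (by positivity) n 0 zero_le_one hc (by
    refine lt_of_le_of_lt hv ?_
    rw [← ENNReal.ofReal_one, ENNReal.ofReal_lt_ofReal_iff (by positivity)]
    rw [one_div, inv_mul_eq_div, lt_div_iff₀ hn0]; linarith)
  have hctr : ∀ i, ∃ c : ℝ × ℝ, i ≤ n → ∀ s ∈ Icc (t i) (t (i + 1)), dist (g s) c ≤ 1 / (2 * n) := by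
    intro i
    by_cases hi : i ≤ n
    · obtain ⟨hle, hd⟩ := ht i hi
      obtain ⟨c, hc'⟩ := center2 (S := g '' Icc (t i) (t (i + 1))) (δ := 1 / n)
        ((nonempty_Icc.mpr hle).image _) (by
          rintro _ ⟨x, hx, rfl⟩ _ ⟨y, hy, rfl⟩
          exact hd x hx y hy)
      refine ⟨c, fun _ s hs => (hc' _ ⟨s, hs, rfl⟩).trans (le_of_eq ?_)⟩
      field_simp
    · exact ⟨0, fun h => absurd h hi⟩
  choose c hcc using hctr
  have hmono : ∀ i ≤ n + 1, t i ∈ Icc (0:ℝ) 1 := by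
    have a1 : ∀ i ≤ n + 1, 0 ≤ t i := by
      intro i
      induction i with
      | zero => intro _; rw [ht0]
      | succ i ih => intro hi; exact (ih (by omega)).trans (ht i (by omega)).1
    have a2 : ∀ j ≤ n + 1, t (n + 1 - j) ≤ 1 := by
      intro j
      induction j with
      | zero => intro _; rw [Nat.sub_zero, ht1]
      | succ j ih =>
        intro hj
        have h1 := ih (by omega)
        have h2 := (ht (n + 1 - (j + 1)) (by omega)).1
        have h3 : n + 1 - (j + 1) + 1 = n + 1 - j := by omega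
        rw [h3] at h2
        exact h2.trans h1
    intro i hi
    refine ⟨a1 i hi, ?_⟩
    have := a2 (n + 1 - i) (by omega)
    rwa [show n + 1 - (n + 1 - i) = i by omega] at this
  refine ⟨c, ?_⟩
  have hvert : ∀ i ≤ n, c i ∈ (P c n) '' Icc 0 1 := by
    intro i hi
    rcases hi.eq_or_lt with rfl | hlt
    · obtain ⟨m, rfl⟩ : ∃ m, i = m + 1 := ⟨i - 1, by omega⟩
      refine ⟨1, ⟨zero_le_one, le_rfl⟩, ?_⟩
      rw [P_eq c (Nat.lt_succ_self m) (by push_cast; linarith) (by push_cast; linarith)]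
      push_cast
      have : ((m:ℝ) + 1) * 1 - m = 1 := by ring
      rw [this, one_smul]; abel
    · refine ⟨i / n, ⟨by positivity, ?_⟩, ?_⟩
      · rw [div_le_one hn0]; exact_mod_cast hlt.le
      · have e : (n:ℝ) * (i / n) = i := by field_simp
        rw [P_eq c hlt (by rw [e]) (by rw [e]; linarith), e, sub_self, zero_smul, add_zero]
  refine hausdorffDist_le_of_mem_dist (by positivity) ?_ ?_
  · rintro _ ⟨s, hs, rfl⟩
    obtain ⟨i, hi, hsi⟩ := exists_piece ht0 ht1 hs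
    exact ⟨c i, hvert i hi, hcc i hi s hsi⟩
  · rintro _ ⟨τ, hτ, rfl⟩
    obtain ⟨i, hi, h0, h1⟩ := exists_idx hn (u := n * τ) (by have := hτ.1; positivity)
      (by nlinarith [hτ.2])
    refine ⟨g (t (i + 1)), ⟨_, hmono _ (by omega), rfl⟩, ?_⟩
    rw [P_eq c hi h0 h1]
    have m1 : c i ∈ closedBall (g (t (i + 1))) (1 / (2 * n)) := by
      rw [mem_closedBall, dist_comm]
      exact hcc i hi.le _ ⟨(ht i hi.le).1, le_rfl⟩
    have m2 : c (i + 1) ∈ closedBall (g (t (i + 1))) (1 / (2 * n)) := by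
      rw [mem_closedBall, dist_comm]
      exact hcc (i + 1) hi _ ⟨le_rfl, (ht (i + 1) hi).1⟩
    have := (convex_closedBall (g (t (i + 1))) (1 / (2 * (n:ℝ)))).add_smul_sub_mem m1 m2
      (t := n * τ - i) ⟨by linarith, by linarith⟩
    exact this

end Q128.HC
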